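import Pool.Agent.H62.QM.Mul
import Pool.Agent.H62.QM.Dens

/-!
# The 2-primary part of the Tate-Shafarevich group over infinitely many number fields at once

For a positive proportion of ALL elliptic curves `E : y ^ 2 = x ^ 3 + A x + B` over `ℚ`, ordered by
height, the following holds. Let `P(E)` be the set of the primes modulo which `x ^ 3 + A x + B` has
no zero (the odd ones are primes of good reduction with `E(𝔽_ℓ)[2] = 0`).

1. `P(E)` has lower density at least `1 / 3` in the set of all primes.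
2. Let `K` be any field which is generated over `ℚ` by square roots of integers `d`, `d ≡ 1` modulo
   `4`, with all prime divisors in `P(E)`. Then `Sel₂(E / K) = 0`, `Ш(E / K)[2^∞] = 0`, `E(K) = 0`.
3. More generally this holds for all Galois extensions `K / ℚ` of 2-power degree which are
   unramified at `2` and outside `P(E)`, and such that the primes of `K` over `ℓ` have norm at most
   `ℓ ^ 2` if `ℓ ^ 2 ∣ A` and `ℓ ^ 3 ∣ B`.

So the 2-primary part of `Ш` is trivial over all the layers of an infinite tower of number fields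
(of degrees `2 ^ n`, `n` arbitrary). The library has the theorem for ONE field `K` which is fixed in
advance, the curves depend on `K` (`MP_78d38b_nt.PositiveProportionUnramified`, helper922).

Method. By the work of helper922 (which we cite: lattices, reduction theory, quadratic reciprocity,
the linear algebra over `𝔽₂`) for a positive proportion of the curves the 2-Selmer group over `ℚ`
with certain relaxed conditions is zero. Corestriction from `K` to `ℚ`, iterated over quadratic
steps, shows that the 2-Selmer group over `K` is zero if all the classes in the local conditions over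
`K` have corestriction in the relaxed conditions over `ℚ`. The new part is local: at a ramified
prime `ℓ` of `P(E)` the group `E(K_v)[2]` is zero, hence all the local conditions vanish; at a prime
with additive reduction (potentially good, quadratic twist of good reduction) we need residue
degree at most `2`; over `2` the curve has good reduction and everything is unramified. The density is
Chebotarev's theorem (library, `R_seed8` `W401/Cheb/Main`) for an element of order three.
-/

set_option autoImplicit false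
set_option linter.all false

namespace Pool.Agent.Results.MP_78d38b_nt.AllTwoExtensions

open Filter NumberField IsDedekindDomain Pool.Agent.TH115.GD
open scoped Classical

/-- The equation `y ^ 2 = x ^ 3 + A x + B` with integers `A`, `B` defines an elliptic curve, and
there is no prime `p` with `p ^ 4 ∣ A` and `p ^ 6 ∣ B`. Every elliptic curve over `ℚ` is isomorphic to
exactly one of these. -/
structure IsMinimal (A B : ℤ) : Prop where
  elliptic : 4 * A ^ 3 + 27 * B ^ 2 ≠ 0
  minimal : ∀ p : ℕ, p.Prime → ¬ ((p : ℤ) ^ 4 ∣ A ∧ (p : ℤ) ^ 6 ∣ B)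

/-- The height. -/
def height (p : ℤ × ℤ) : ℤ := max (4 * |p.1| ^ 3) (27 * p.2 ^ 2)

/-- The set of all elliptic curves over `ℚ` of height at most `X`. -/
def Curves (X : ℕ) : Set (ℤ × ℤ) := {p | IsMinimal p.1 p.2 ∧ height p ≤ X}

/-- The curve `y ^ 2 = x ^ 3 + A x + B` over `K`. -/
def curve (K : Type) [Field K] (p : ℤ × ℤ) : WeierstrassCurve K := ⟨0, 0, 0, (p.1 : K), (p.2 : K)⟩

section sha

variable (K : Type) [Field K] [NumberField K] (W : WeierstrassCurve K)

/-- The cocycle `f` of `Gal(Sep K / K)` is a coboundary over the completion of `K` at every maximal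
ideal of the ring of integers. -/
def Locally (f : (Sep K ≃ₐ[K] Sep K) → Pt W (Sep K)) : Prop :=
  ∀ v : HeightOneSpectrum (𝓞 K), LocTriv W (Comp (𝓞 K) K v) (Sep (Comp (𝓞 K) K v)) f

/-- The 2-Selmer group is zero: every continuous cocycle with values in the points of order two
which is a coboundary over all completions (at the finite places), with values in all points, is
the coboundary of a point of order two. -/
def SelTwoZero : Prop :=
  ∀ f : (Sep K ≃ₐ[K] Sep K) → Pt W (Sep K), IsCoc W f → (∀ σ, (2 : ℕ) • f σ = 0) →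
    Locally K W f → ∃ T : Pt W (Sep K), (2 : ℕ) • T = 0 ∧ ∀ σ, f σ = act W (rs K σ) T - T

/-- The 2-primary part of the Tate-Shafarevich group is zero: every continuous cocycle whose class
is killed by a power of two and which is a coboundary over all completions (at the finite places) is a
coboundary. -/
def ShaTwoZero : Prop :=
  ∀ f : (Sep K ≃ₐ[K] Sep K) → Pt W (Sep K), IsCoc W f → Locally K W f →
    (∃ (n : ℕ) (Q : Pt W (Sep K)), ∀ σ, 2 ^ n • f σ = act W (rs K σ) Q - Q) →
    ∃ Q : Pt W (Sep K), ∀ σ, f σ = act W (rs K σ) Q - Q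

end sha

/-- Trivial 2-Selmer group, trivial 2-primary part of the Tate-Shafarevich group, and no points
except the point at infinity, over `K`. -/
structure Good (K : Type) [Field K] [NumberField K] (p : ℤ × ℤ) : Prop where
  sel : SelTwoZero K (curve K p)
  sha : ShaTwoZero K (curve K p)
  trivial : Subsingleton (Pt (curve K p) K)

/-- The polynomial `z ^ 3 + A z + B` has no zero modulo `ℓ`. For a prime `ℓ ≠ 2` this means that the
curve `y ^ 2 = x ^ 3 + A x + B` has good reduction at `ℓ` and no point of order two over `𝔽_ℓ`. -/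
def NoZero (p : ℤ × ℤ) (ℓ : ℕ) : Prop := ∀ z : ℤ, ¬ (ℓ : ℤ) ∣ z ^ 3 + p.1 * z + p.2

/-- The field `K` is generated over `ℚ` by square roots of integers `d` with `d ≡ 1` modulo `4`, such
that `z ^ 3 + A z + B` has no zero modulo the prime divisors of `d`. -/
def Multiquadratic (K : Type) [Field K] [NumberField K] (p : ℤ × ℤ) : Prop :=
  ∃ D : Set K, IntermediateField.adjoin ℚ D = ⊤ ∧ ∀ x ∈ D, ∃ d : ℤ, x ^ 2 = (d : K) ∧ d % 4 = 1 ∧
    ∀ ℓ : ℕ, ℓ.Prime → (ℓ : ℤ) ∣ d → NoZero p ℓ

/-- The admissible Galois 2-extensions `K / ℚ` for the curve `y ^ 2 = x ^ 3 + A x + B`. -/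
structure Admissible (K : Type) [Field K] [NumberField K] (p : ℤ × ℤ) : Prop where
  galois : IsGalois ℚ K
  degree : ∃ n : ℕ, Module.finrank ℚ K = 2 ^ n
  two : ¬ (2 : ℤ) ∣ discr K
  ramified : ∀ ℓ : ℕ, ℓ.Prime → (ℓ : ℤ) ∣ discr K → NoZero p ℓ
  residue : ∀ ℓ : ℕ, ℓ.Prime → (ℓ : ℤ) ^ 2 ∣ p.1 → (ℓ : ℤ) ^ 3 ∣ p.2 →
    ∀ 𝔭 : Ideal (𝓞 K), 𝔭.IsPrime → (ℓ : 𝓞 K) ∈ 𝔭 → Ideal.absNorm 𝔭 ≤ ℓ ^ 2

/-- The primes `ℓ` modulo which `z ^ 3 + A z + B` has no zero have lower density at least `1 / 3`; and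
the curve is good over all the admissible fields, in particular (as `multi` states) over all the
multiquadratic fields as above. -/
structure Strong (p : ℤ × ℤ) : Prop where
  density : ∀ ε : ℝ, 0 < ε → ∀ᶠ x : ℕ in atTop, (1 / 3 - ε) * (Nat.primeCounting x : ℝ) ≤
    (Nat.card {ℓ : ℕ // ℓ ≤ x ∧ ℓ.Prime ∧ NoZero p ℓ} : ℝ)
  multi : ∀ (K : Type) [Field K] [NumberField K], Multiquadratic K p → Good K p
  all : ∀ (K : Type) [Field K] [NumberField K], Admissible K p → Good K p

theorem crv_iff (X : ℕ) (p : ℤ × ℤ) : Pool.Agent.N922.PQ.Crv X p.1 p.2 ↔ p ∈ Curves X := by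
  constructor
  · rintro ⟨h1, h2, h3, h4⟩
    exact ⟨⟨h1, h2⟩, max_le h3 h4⟩
  · rintro ⟨⟨h1, h2⟩, h3⟩
    exact ⟨h1, h2, (le_max_left _ _).trans h3, (le_max_right _ _).trans h3⟩

theorem nonempty {X : ℕ} (hX : 27 ≤ X) : ((1, 1) : ℤ × ℤ) ∈ Curves X := by
  refine ⟨⟨by norm_num, ?_⟩, ?_⟩
  · rintro p hp ⟨h, -⟩
    have h1 : ((p : ℤ)) ∣ 1 := (dvd_pow_self (p : ℤ) (by norm_num)).trans h
    have h2 : p ∣ 1 := by exact_mod_cast h1
    exact hp.one_lt.ne' (Nat.dvd_one.1 h2)
  · have : height ((1, 1) : ℤ × ℤ) = 27 := by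
      simp [height]
    rw [this]
    exact_mod_cast hX

/-- Prime ideals of norm at most `ℓ ^ 2`. -/
theorem res_of {K : Type} [Field K] [NumberField K] {ℓ : ℕ} (hℓ : ℓ.Prime) {𝔭 : Ideal (𝓞 K)}
    (hp : 𝔭.IsPrime) (hm : (ℓ : 𝓞 K) ∈ 𝔭) (hN : Ideal.absNorm 𝔭 ≤ ℓ ^ 2) (x : 𝓞 K) :
    x ^ (ℓ ^ 2) - x ∈ 𝔭 := by
  have hne : 𝔭 ≠ ⊥ := by
    rintro rfl
    rw [Ideal.mem_bot] at hm
    exact hℓ.ne_zero (by exact_mod_cast hm)
  haveI : 𝔭.IsMaximal := hp.isMaximal hne
  haveI : Finite (𝓞 K ⧸ 𝔭) := Ideal.finiteQuotientOfFreeOfNeBot 𝔭 hne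
  letI : Field (𝓞 K ⧸ 𝔭) := Ideal.Quotient.field 𝔭
  letI : Fintype (𝓞 K ⧸ 𝔭) := Fintype.ofFinite _
  haveI : Fact ℓ.Prime := ⟨hℓ⟩
  haveI : CharP (𝓞 K ⧸ 𝔭) ℓ := by
    refine (CharP.charP_iff_prime_eq_zero hℓ).2 ?_
    rw [← map_natCast (Ideal.Quotient.mk 𝔭), Ideal.Quotient.eq_zero_iff_mem]
    exact hm
  obtain ⟨n, -, hn⟩ := FiniteField.card (𝓞 K ⧸ 𝔭) ℓ
  have hcard : Ideal.absNorm 𝔭 = ℓ ^ (n : ℕ) := by
    rw [Ideal.absNorm_apply, Submodule.cardQuot_apply, Nat.card_eq_fintype_card]
    exact hn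
  rw [hcard] at hN
  have hn2 : (n : ℕ) ≤ 2 := (Nat.pow_le_pow_iff_right hℓ.one_lt).1 hN
  have key : ∀ y : 𝓞 K ⧸ 𝔭, y ^ (ℓ ^ 2) = y := by
    intro y
    have h1 : y ^ ℓ ^ (n : ℕ) = y := by
      rw [← hn]
      exact FiniteField.pow_card y
    have hpos := n.pos
    interval_cases h : (n : ℕ)
    · rw [pow_one] at h1
      rw [pow_two, pow_mul, h1, h1]
    · exact h1
  rw [← Ideal.Quotient.eq_zero_iff_mem, map_sub, map_pow, key, sub_self]

theorem adm_of {K : Type} [Field K] [NumberField K] {p : ℤ × ℤ} (h : Admissible K p) :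
    Pool.Agent.H62.QM.AdmF K p :=
  ⟨h.galois, h.degree, fun ℓ hℓ hd => ⟨fun h2 => h.two (by subst h2; exact_mod_cast hd),
    h.ramified ℓ hℓ hd⟩, fun ℓ hℓ h1 h2 𝔭 hp hm x => res_of hℓ hp hm (h.residue ℓ hℓ h1 h2 𝔭 hp hm) x⟩

theorem good_of {K : Type} [Field K] [NumberField K] {p : ℤ × ℤ}
    (h : Pool.Agent.N922.PQ.GoodV (M := K) (𝓞 K) p) : Good K p := by
  obtain ⟨hs, hd, hsha⟩ := h
  exact ⟨hs, hsha, hd⟩

theorem strong_of {p : ℤ × ℤ} (h : Pool.Agent.H62.QM.AllGood p) : Strong p := by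
  obtain ⟨h0, h1⟩ := h
  refine ⟨fun ε hε => ?_, fun K _ _ hK => good_of (h1 K (Pool.Agent.H62.QM.adm_of_multi hK)),
    fun K _ _ hK => good_of (h1 K (adm_of hK))⟩
  exact Pool.Agent.H62.QM.dens h0 hε

/-- There is `c > 0` such that for all large `X` at least `c` times the number of all elliptic curves
`E : y ^ 2 = x ^ 3 + A x + B` over `ℚ` of height at most `X` have the following property: the set `P(E)`
of the primes modulo which `x ^ 3 + A x + B` has no zero has lower density at least `1 / 3`, and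
`Sel₂(E / K) = 0`, `Ш(E / K)[2^∞] = 0` and `E(K) = 0` for all number fields `K` generated by square
roots of integers `d ≡ 1` modulo `4` with all prime divisors in `P(E)`, and, more generally, for all
Galois extensions `K / ℚ` of 2-power degree which are unramified at `2` and outside `P(E)` and such
that the primes over `ℓ` have norm at most `ℓ ^ 2` if `ℓ ^ 2 ∣ A` and `ℓ ^ 3 ∣ B`. -/
theorem result :
    (∀ X : ℕ, (Curves X).Finite) ∧
    ∃ c : ℝ, 0 < c ∧ ∀ᶠ X : ℕ in atTop,
      0 < (Curves X).ncard ∧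
      c * ((Curves X).ncard : ℝ) ≤ (({p ∈ Curves X | Strong p}).ncard : ℝ) := by
  have hset : ∀ X : ℕ, Curves X = {p : ℤ × ℤ | Pool.Agent.N922.PQ.Crv X p.1 p.2} := by
    intro X
    ext p
    exact (crv_iff X p).symm
  have hfin : ∀ X : ℕ, (Curves X).Finite := fun X => by
    rw [hset]
    exact Pool.Agent.N922.PQ.crv_fin X
  refine ⟨hfin, ?_⟩
  obtain ⟨c, hc, X₀, h⟩ := Pool.Agent.H62.QM.final_all
  refine ⟨c, hc, ?_⟩
  filter_upwards [eventually_ge_atTop (max X₀ 27)] with X hX
  refine ⟨(Set.ncard_pos (hfin X)).2 ⟨_, nonempty ((le_max_right _ _).trans hX)⟩, ?_⟩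
  have h1 := (h X ((le_max_left _ _).trans hX)).2
  rw [← hset] at h1
  refine h1.trans ?_
  have h3 : {p : ℤ × ℤ | Pool.Agent.N922.PQ.Crv X p.1 p.2 ∧
      Pool.Agent.H62.QM.AllGood p} ⊆ {p ∈ Curves X | Strong p} := by
    rintro p ⟨hp, hs⟩
    exact ⟨(crv_iff X p).1 hp, strong_of hs⟩
  have h4 := Set.ncard_le_ncard h3 ((hfin X).subset fun p hp => hp.1)
  exact_mod_cast h4

end Pool.Agent.Results.MP_78d38b_nt.AllTwoExtensions
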