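import Pool.Agent.H74.LG.ShaFin

/-!
# Finiteness of the Tate-Shafarevich groups over the intermediate fields of a Galois extension

Let `E` be an elliptic curve (or an abelian variety) over a number field `k`, and `L` a finite Galois
extension of `k` with the group `G`. For a subgroup `H` let `Q(H)` say that `Ш(E / L ^ H)` is finite; so
`Q(1)` says that `Ш(E / L)` is finite.

1. `Q(H)` implies `Q(H')` for `H ≤ H'`.
2. If every irreducible rational representation of `G` with a nonzero vector fixed by `H` has for
   some `j` a nonzero vector fixed by `E j`, and the `Ш(E / L ^ (E j))` are finite, then
   `Ш(E / L ^ H)` is finite.
3. If `c` is an involution in `G` (for example a complex conjugation) then `Ш(E / L)` is finite if and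
   only if it is finite over the fixed fields of `c` and of `[G, c]`. The latter is the largest subfield
   normal over `k` (for the complex conjugation `c` and `k = ℚ`) in which `c` is central: a totally
   real or a CM field.
4. If `c` is an involution in a nonabelian simple subgroup of `G`, `Ш(E / L)` is finite if and only if
   it is finite over the fixed field of `c`.
5. If a subgroup of `G` is partitioned into at least two subgroups `E j`, `Ш(E / L)` is finite if and
   only if it is finite over all the fixed fields of the `E j`.
6. If `Ш(E / L)` is infinite but it is finite over all fields over which `L` has prime degree, then
   `G` has an irreducible rational representation in which only `1` has nonzero fixed vectors (`G` is a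
   Frobenius complement), the subgroups of `G` of order `p q` and the commutative subgroups are
   cyclic, and `G` has at most one involution.
7. `Ш(E / L)` is finite if and only if it is finite over the fixed fields of the kernels of the
   irreducible rational representations of `G`.
8. If `G` is commutative, `Ш(E / L)` is finite if and only if it is finite over the intermediate
   fields which are cyclic over `k`.

So a counterexample `E / K` to Q1 with `K` an abelian extension of `k` (of minimal degree for `E / k`)
is over a cyclic extension of `k`.
-/

set_option autoImplicit false

namespace Pool.Agent.Results.MP_78d38b_nt.IntermediateFields

open Pool.Agent.H74.LG.Sha

/-- **Theorem.** The finiteness of the Tate-Shafarevich groups over the intermediate fields of a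
Galois extension. -/
theorem result {G : Type} [Group G] [Fintype G] (T : ShaData G) :
    FieldLaws (fun H => Finite (T.sha H)) :=
  main T

end Pool.Agent.Results.MP_78d38b_nt.IntermediateFields
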